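import Pool.Agent.V5helper99.DC.Main

/-!
# Lower bound for the maximal dimension of `k`-orbit convex polytopes

`N_k` is the least `N` such that every geometrically `k`-orbit convex `d`-polytope has `d < N`. For every `k ≥ 3` the
`(k+2)`-dimensional demicube, the convex hull of the points of `{-1, 1}^(k+2)` with an even number of coordinates
`-1`, is a geometrically `k`-orbit convex polytope, so `N_k ≥ k + 3`.

The proof determines all faces of the demicube (by their supporting linear forms), all its flags and the orbits of
the group of all isometries mapping the demicube onto itself.
-/

set_option autoImplicit false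

namespace Pool.Agent.Results.MP_727bc7_co.Demicubes

open DC99

/-- For every `k ≥ 3` the demicube of dimension `k + 2` is a geometrically `k`-orbit convex polytope; hence
every `N` such that all geometrically `k`-orbit convex `d`-polytopes have `d < N` is at least `k + 3`. -/
theorem result (k : ℕ) (hk : 3 ≤ k) :
    IsKOrbit k (dc (k + 2)) ∧
    ∀ N : ℕ, (∀ (d : ℕ) (P : Set (E d)), IsKOrbit k P → d < N) → k + 3 ≤ N := by
  have main := DC99.main k hk
  exact ⟨main, fun N hN => by have := hN _ _ main; omega⟩

end Pool.Agent.Results.MP_727bc7_co.Demicubes
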